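import Pool.Agent.helper85.PG.Spec

set_option autoImplicit false

namespace Pool.Agent.helper85.PG

open Module

/-- growth between two scales -/
theorem CMP_grow (hGR : GR_stmt) (E : Type) [NormedAddCommGroup E] [NormedSpace ℝ E]
    [FiniteDimensional ℝ E] (H : Type) [AddCommGroup H] (G : AddSubgroup (E × H)) (hFB : FB G)
    (a l : ℝ) (ha : 0 < a) (hal : a ≤ l) (s : ℕ)
    (hs : finrank ℝ (Submodule.span ℝ (Prod.fst '' ball G a)) = s) :
    (l / a) ^ s * ((ball G a).ncard : ℝ) ≤ (2 * ((s : ℝ) + 3)) ^ s * ((ball G l).ncard : ℝ) := by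
  have hl : 0 < l := lt_of_lt_of_le ha hal
  have hs0 : (0 : ℝ) ≤ (s : ℝ) := Nat.cast_nonneg s
  by_cases h : (1 + (s : ℝ) / 2) * a ≤ l / 2
  · set R : ℝ := l - (1 + (s : ℝ) / 2) * a with hR
    have hR2 : l / 2 ≤ R := by rw [hR]; linarith
    have hR0 : 0 < R := by linarith
    have h1 := hGR E H G hFB a R ha hR0 s hs
    have h2 : R + (1 + (s : ℝ) / 2) * a = l := by rw [hR]; ring
    rw [h2] at h1
    have h3 : l / a ≤ (2 * ((s : ℝ) + 3)) * (R / (((s : ℝ) + 3) * a)) := by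
      have : (2 * ((s : ℝ) + 3)) * (R / (((s : ℝ) + 3) * a)) = 2 * R / a := by
        field_simp
      rw [this]
      exact div_le_div_of_nonneg_right (by linarith) ha.le
    have h4 : (l / a) ^ s ≤ (2 * ((s : ℝ) + 3)) ^ s * (R / (((s : ℝ) + 3) * a)) ^ s := by
      rw [← mul_pow]
      exact pow_le_pow_left₀ (by positivity) h3 s
    calc (l / a) ^ s * ((ball G a).ncard : ℝ)
        ≤ ((2 * ((s : ℝ) + 3)) ^ s * (R / (((s : ℝ) + 3) * a)) ^ s) * ((ball G a).ncard : ℝ) :=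
          mul_le_mul_of_nonneg_right h4 (Nat.cast_nonneg _)
      _ = (2 * ((s : ℝ) + 3)) ^ s * ((R / (((s : ℝ) + 3) * a)) ^ s * ((ball G a).ncard : ℝ)) := by
          ring
      _ ≤ (2 * ((s : ℝ) + 3)) ^ s * ((ball G l).ncard : ℝ) :=
          mul_le_mul_of_nonneg_left h1 (by positivity)
  · push Not at h
    have h3 : l / a ≤ 2 * ((s : ℝ) + 3) := by
      rw [div_le_iff₀ ha]
      nlinarith
    have h4 : (l / a) ^ s ≤ (2 * ((s : ℝ) + 3)) ^ s := pow_le_pow_left₀ (by positivity) h3 s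
    have h5 : ((ball G a).ncard : ℝ) ≤ ((ball G l).ncard : ℝ) := by
      exact_mod_cast Set.ncard_le_ncard (ball_mono G hal) (hFB l)
    exact mul_le_mul h4 h5 (Nat.cast_nonneg _) (by positivity)

/-- packing factor -/
theorem CMP_fac (a l : ℝ) (ha : 0 < a) (hal : a ≤ l) (s : ℕ) :
    (1 + 2 * l / a) ^ s ≤ 3 ^ s * (l / a) ^ s := by
  rw [← mul_pow]
  have h1 : 1 ≤ l / a := by rw [le_div_iff₀ ha]; linarith
  have h2 : (2 * l / a) = 2 * (l / a) := by ring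
  refine pow_le_pow_left₀ ?_ ?_ s
  · rw [h2]; linarith
  · rw [h2]; linarith

theorem CMP (hPKC : PKC_stmt) (hGR : GR_stmt) (hT1 : T1_stmt) : CMP_stmt := by
  intro p _ E _ _ _ d G l ρ hFB hd hl hprop hρ
  obtain ⟨-, hPR, hLL⟩ := hT1
  obtain ⟨L, hFBL, hLc, hLp⟩ := hLL p E G ρ hFB hρ
  have hP2 := hPKC.2.1
  set s : ℕ := finrank ℝ (Submodule.span ℝ (Prod.fst '' ball L l)) with hs
  have hspan : ∀ z ∈ ball L l, z.1 ∈ Submodule.span ℝ (Prod.fst '' ball L l) := fun z hz =>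
    Submodule.subset_span ⟨z, hz, rfl⟩
  by_cases hsd : s ≤ d
  · left
    intro a ha hal hsp
    set q : ℝ := l / a with hq
    have hq1 : 1 ≤ q := by rw [hq, le_div_iff₀ ha]; linarith
    -- the ratio count
    have h1 : (rr (PP G l) ρ : ℝ) ≤ 3 ^ d * q ^ d * (rr (PP G a) ρ : ℝ) := by
      have h := hP2 p (E × E) L (Submodule.span ℝ (Prod.fst '' ball L l)) l a hl.le ha hspan
      rw [hLc, hLc, ← hs] at h
      refine h.trans (mul_le_mul_of_nonneg_right ?_ (Nat.cast_nonneg _))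
      refine (CMP_fac a l ha hal s).trans ?_
      exact mul_le_mul (pow_le_pow_right₀ (by norm_num) hsd) (pow_le_pow_right₀ hq1 hsd)
        (by positivity) (by positivity)
    -- growth of G
    have hfin : finrank ℝ (Submodule.span ℝ (Prod.fst '' ball G a)) = d := by
      rw [hsp, finrank_top, hd]
    have h2 := CMP_grow hGR E (ZMod p) G hFB a l ha hal d hfin
    have hpa : ∀ x : E, (x, (0 : ZMod p)) ∈ G → ‖x‖ ≤ 2 * a → x = 0 := fun x hx hxa =>
      hprop x hx (hxa.trans (by linarith))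
    have h3 := hPR p E G l hFB hprop
    have h4 := hPR p E G a hFB hpa
    rw [← h3, ← h4] at h2
    have h5 : (6 * ((d : ℝ) + 3)) ^ d = 3 ^ d * (2 * ((d : ℝ) + 3)) ^ d := by
      rw [← mul_pow]; ring
    calc ((PP G a).card : ℝ) * (rr (PP G l) ρ : ℝ)
        ≤ ((PP G a).card : ℝ) * (3 ^ d * q ^ d * (rr (PP G a) ρ : ℝ)) :=
          mul_le_mul_of_nonneg_left h1 (Nat.cast_nonneg _)
      _ = (3 ^ d * (rr (PP G a) ρ : ℝ)) * (q ^ d * ((PP G a).card : ℝ)) := by ring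
      _ ≤ (3 ^ d * (rr (PP G a) ρ : ℝ)) * ((2 * ((d : ℝ) + 3)) ^ d * ((PP G l).card : ℝ)) :=
          mul_le_mul_of_nonneg_left h2 (by positivity)
      _ = (6 * ((d : ℝ) + 3)) ^ d * ((rr (PP G a) ρ : ℝ) * ((PP G l).card : ℝ)) := by
          rw [h5]; ring
  · right
    push Not at hsd
    intro b hlb hpb
    have hb : 0 < b := lt_of_lt_of_le hl hlb
    set q : ℝ := b / l with hq
    have hq1 : 1 ≤ q := by rw [hq, le_div_iff₀ hl]; linarith
    have h1 : ((PP G b).card : ℝ) ≤ 3 ^ d * q ^ d * ((PP G l).card : ℝ) := by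
      have h := hP2 p E G ⊤ b l hb.le hl (fun z _ => Submodule.mem_top)
      rw [finrank_top, hd] at h
      exact h.trans (mul_le_mul_of_nonneg_right (CMP_fac l b hl hlb d) (Nat.cast_nonneg _))
    have h2 := CMP_grow hGR (E × E) (ZMod p) L hFBL l b hl hlb s hs.symm
    have hLl := hLp l hprop
    have hLb := hLp b hpb
    have h3 := hPR p (E × E) L l hFBL hLl
    have h4 := hPR p (E × E) L b hFBL hLb
    rw [← h3, ← h4, hLc, hLc] at h2
    have hs2 : s ≤ 2 * d := by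
      have : s ≤ finrank ℝ (E × E) := Submodule.finrank_le _
      rw [Module.finrank_prod, hd] at this
      omega
    have h5 : (2 * ((s : ℝ) + 3)) ^ s ≤ (4 * (d : ℝ) + 6) ^ (2 * d) := by
      have hs2' : (s : ℝ) ≤ 2 * (d : ℝ) := by exact_mod_cast hs2
      have hd0 : (0 : ℝ) ≤ (d : ℝ) := Nat.cast_nonneg d
      calc (2 * ((s : ℝ) + 3)) ^ s ≤ (4 * (d : ℝ) + 6) ^ s :=
            pow_le_pow_left₀ (by positivity) (by linarith) s
        _ ≤ (4 * (d : ℝ) + 6) ^ (2 * d) := pow_le_pow_right₀ (by linarith) hs2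
    have h6 : q ^ d * (rr (PP G l) ρ : ℝ) ≤ (4 * (d : ℝ) + 6) ^ (2 * d) * (rr (PP G b) ρ : ℝ) := by
      calc q ^ d * (rr (PP G l) ρ : ℝ) ≤ q ^ s * (rr (PP G l) ρ : ℝ) :=
            mul_le_mul_of_nonneg_right (pow_le_pow_right₀ hq1 hsd.le) (Nat.cast_nonneg _)
        _ ≤ (2 * ((s : ℝ) + 3)) ^ s * (rr (PP G b) ρ : ℝ) := h2
        _ ≤ (4 * (d : ℝ) + 6) ^ (2 * d) * (rr (PP G b) ρ : ℝ) :=
            mul_le_mul_of_nonneg_right h5 (Nat.cast_nonneg _)
    calc ((PP G b).card : ℝ) * (rr (PP G l) ρ : ℝ)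
        ≤ (3 ^ d * q ^ d * ((PP G l).card : ℝ)) * (rr (PP G l) ρ : ℝ) :=
          mul_le_mul_of_nonneg_right h1 (Nat.cast_nonneg _)
      _ = (3 ^ d * ((PP G l).card : ℝ)) * (q ^ d * (rr (PP G l) ρ : ℝ)) := by ring
      _ ≤ (3 ^ d * ((PP G l).card : ℝ)) * ((4 * (d : ℝ) + 6) ^ (2 * d) * (rr (PP G b) ρ : ℝ)) :=
          mul_le_mul_of_nonneg_left h6 (by positivity)
      _ = (3 ^ d * (4 * (d : ℝ) + 6) ^ (2 * d)) * ((rr (PP G b) ρ : ℝ) * ((PP G l).card : ℝ)) := by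
          ring

end Pool.Agent.helper85.PG
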